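import Mathlib
import Pool.Agent.L0h75.CV.Fin2
import Pool.Agent.L0h54.CW.Int2
import Pool.Agent.L0h62.VC.H

set_option autoImplicit false

/-!
# The variance of `f χ` in short intervals for almost all Dirichlet characters

Let `f` be any function with `|f(n)| ≤ 1`, for example the Möbius function. For every modulus `P ≥ P₀` all but
`P ^ (1 - ε δ / 64)` Dirichlet characters `χ` modulo `P` satisfy:

(1) for all `X` in `[P ^ ε, P ^ K]`, all `1 ≤ L ≤ X` and all subintervals `[A, B)` of `[X, 2 X)` the sum over `a`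
in `[A, B)` of `|∑_{a < n ≤ a + L} f(n) χ(n)| ^ 2` is `L ∑_{A ≤ n < B} |f(n) χ(n)| ^ 2`, with an error of at
most `L (√(X L) + X L / √P) X ^ δ`;

(2) the same for the mean over the real `x` in `[X, 2 X]` of the sums over `|n - x| < H / 2`;

(3) if `P` is prime and `|f| = |μ|` then this mean is `H / ζ(2)` with the same error.

Proof. The difference is a sum of averaged pair correlations of `f χ`, over `n` and over the shift `k`. By the
orthogonality of the characters the second moment of such a sum over a rectangle is at most `P` times the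
number of pairs of pairs with `n k' ≡ n' k` modulo `P`. A maximal inequality for the dyadic rectangles gives all
rectangles at once.
-/

namespace Pool.Agent.Results.MP_4f18df_nt.CharacterVariance

open Finset MeasureTheory

/-- **The mean square over short intervals of `f χ`, for almost all characters `χ` modulo `P`.** -/
theorem result (K : ℕ) (ε δ : ℝ) (hε : 0 < ε) (hδ : 0 < δ) :
    ∃ P₀ : ℕ, ∀ (P : ℕ) [NeZero P], P₀ ≤ P → ∀ f : ℕ → ℂ, (∀ n, ‖f n‖ ≤ 1) →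
      ∃ E : Finset (DirichletCharacter ℂ P), (E.card : ℝ) ≤ (P : ℝ) ^ (1 - ε * δ / 64) ∧
        ∀ χ : DirichletCharacter ℂ P, χ ∉ E →
        (∀ X L A B : ℕ, (P : ℝ) ^ ε ≤ X → X ≤ P ^ K → 1 ≤ L → L ≤ X →
          X ≤ A → A ≤ B → B ≤ 2 * X →
          |∑ a ∈ Ico A B, ‖∑ n ∈ Ioc a (a + L), f n * χ (n : ZMod P)‖ ^ 2 -
              L * ∑ n ∈ Ico A B, ‖f n * χ (n : ZMod P)‖ ^ 2| ≤
            L * (√(X * L) + X * L / √P) * (X : ℝ) ^ δ) ∧
        (∀ X H : ℝ, (P : ℝ) ^ ε ≤ X → X ≤ (P : ℝ) ^ K → 4 ≤ H → 4 * H ≤ X →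
          |(1 / X) * (∫ x in X..2 * X, ‖∑ n ∈ (range (⌊x + H⌋₊ + 1)).filter
              (fun n : ℕ => |(n : ℝ) - x| < H / 2), f n * χ (n : ZMod P)‖ ^ 2) -
            H * ((1 / X) * ∑ n ∈ Ico ⌈X⌉₊ ⌈2 * X⌉₊, ‖f n * χ (n : ZMod P)‖ ^ 2)| ≤
            (H * (√(H / X) + H / √P) + √H) * X ^ δ) ∧
        (P.Prime → (∀ n, ‖f n‖ = |(ArithmeticFunction.moebius n : ℝ)|) →
          ∀ X H : ℝ, (P : ℝ) ^ ε ≤ X → X ≤ (P : ℝ) ^ K → 4 ≤ H → 4 * H ≤ X →
          |(1 / X) * (∫ x in X..2 * X, ‖∑ n ∈ (range (⌊x + H⌋₊ + 1)).filter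
              (fun n : ℕ => |(n : ℝ) - x| < H / 2), f n * χ (n : ZMod P)‖ ^ 2) -
            H / (Real.pi ^ 2 / 6)| ≤ (H * (√(H / X) + H / √P) + √H) * X ^ δ) := by
  have hS : Pool.Agent.L0h75.CV.S_SQ := by
    intro P hP A B hA hAB
    exact Pool.Agent.L0h62.VC.sqf_prime P A B hP.one_lt.le hA hAB
  obtain ⟨P₀, h⟩ := Pool.Agent.L0h75.CV.final2 Pool.Agent.L0h54.CW.t_INT hS K ε δ hε hδ
  refine ⟨P₀, fun P _ hP f hf => ?_⟩
  obtain ⟨E, hE1, hE2⟩ := h P hP f hf
  exact ⟨E, hE1, fun χ hχ => hE2 χ hχ⟩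

end Pool.Agent.Results.MP_4f18df_nt.CharacterVariance
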