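import Pool.Agent.L0h54.GC.Main

set_option autoImplicit false

/-!
# The Good–Churchhouse law for the Möbius function twisted by Legendre symbols

Let `0 < ε < 1/2` and `δ > 0`.  There is `A` such that for every `B ≥ A` there is `c > 0` with the
following property.  For all large `Q` and every choice of signs `a n`, all primes `p ≤ Q` with at
most `Q ^ (1 - c)` exceptions satisfy: for all `X` in `[Q ^ (1 / B), Q ^ (1 / A)]`, all
`H` in `[X ^ ε, X ^ (1 - ε)]` and all `t`, the proportion of `x` in `[X, 2 X]` with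
`∑_{|n - x| < H / 2} a n μ(n) (n / p) ≤ t √(H / ζ(2))` differs by at most `δ` from the value at `t`
of the standard normal distribution function.
-/

namespace Pool.Agent.Results.MP_4f18df_nt.LegendreTwists

open MeasureTheory

/-- **The Gaussian law in short intervals for `a(n) μ(n) (n/p)`, for almost all primes `p`.** -/
theorem result (ε δ : ℝ) (hε : 0 < ε) (hε' : ε < 1 / 2) (hδ : 0 < δ) :
    ∃ A : ℝ, 1 ≤ A ∧ ∀ B : ℝ, A ≤ B → ∃ c : ℝ, 0 < c ∧ ∃ Q₀ : ℕ, ∀ Q : ℕ, Q₀ ≤ Q →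
      ∀ a : ℕ → ℤ, (∀ n, a n = 1 ∨ a n = -1) →
      ∃ E : Finset ℕ, (E.card : ℝ) ≤ (Q : ℝ) ^ (1 - c) ∧
        ∀ p : ℕ, p.Prime → p ≤ Q → p ∉ E →
        ∀ X : ℝ, (Q : ℝ) ^ (1 / B) ≤ X → X ≤ (Q : ℝ) ^ (1 / A) →
        ∀ H : ℝ, X ^ ε ≤ H → H ≤ X ^ (1 - ε) →
        ∀ t : ℝ,
          |(MeasureTheory.volume
              {x : ℝ | x ∈ Set.Icc X (2 * X) ∧
                (∑ n ∈ (Finset.range (⌊x + H⌋₊ + 1)).filter
                    (fun n : ℕ => |(n : ℝ) - x| < H / 2),
                    ((a n * ArithmeticFunction.moebius n * jacobiSym (n : ℤ) p : ℤ) : ℝ))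
                  / Real.sqrt (H / (Real.pi ^ 2 / 6)) ≤ t}).toReal / X -
            ProbabilityTheory.cdf (ProbabilityTheory.gaussianReal 0 1) t| ≤ δ := by
  classical
  obtain ⟨A, hA, h⟩ := Pool.Agent.L0h54.GC.main ε δ hε (by linarith) hδ
  refine ⟨A, hA, fun B hB => ?_⟩
  obtain ⟨c, hc, Q₀, h2⟩ := h B hB
  refine ⟨c, hc, Q₀, fun Q hQ a ha => ?_⟩
  have hsg : ∀ n : ℕ, |(if Squarefree n then
      ((a n * ArithmeticFunction.moebius n : ℤ) : ℝ) else 1)| = 1 := by
    intro n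
    split_ifs with hn
    · have h3 : |a n * ArithmeticFunction.moebius n| = 1 := by
        rw [abs_mul, ArithmeticFunction.abs_moebius_eq_one_of_squarefree hn, mul_one]
        rcases ha n with h4 | h4 <;> rw [h4] <;> rfl
      rw [← Int.cast_abs, h3, Int.cast_one]
    · exact abs_one
  obtain ⟨E, hE1, hE2⟩ := h2 Q hQ (fun n => if Squarefree n then
      ((a n * ArithmeticFunction.moebius n : ℤ) : ℝ) else 1) hsg
  refine ⟨E, hE1, fun p hp hpQ hpE X hX1 hX2 H hH1 hH2 t => ?_⟩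
  have h5 := hE2 p hp hpQ hpE X hX1 hX2 H hH1 hH2
    (fun n => ((a n * ArithmeticFunction.moebius n * jacobiSym (n : ℤ) p : ℤ) : ℝ))
    (by
      intro n hn
      rw [ArithmeticFunction.moebius_eq_zero_of_not_squarefree hn]
      simp)
    (by
      intro n hn
      unfold Pool.Agent.L0h54.GC.ff Pool.Agent.H306R2.RZ.js
      simp only [if_pos hn]
      push_cast
      rfl) t
  exact h5

end Pool.Agent.Results.MP_4f18df_nt.LegendreTwists
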