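import Mathlib
import Pool.Agent.L0h54.VR.Done

set_option autoImplicit false

/-!
# The variance of the Möbius function twisted by Legendre symbols in short intervals

Let `0 < ε < 1/2`.  There is `c > 0` with the following property.  For all large `Q` and every
choice of signs `a n`, all primes `p ≤ Q` with at most `Q ^ (1 - c)` exceptions satisfy the
asymptotic formula of Good and Churchhouse for `a(n) μ(n) (n/p)`: for all real `X ≥ Q ^ ε` and `H` in
`[X ^ ε, X ^ (1 - ε)]` with `X H ≤ Q ^ (1 - ε)`, the mean over `x` in `[X, 2 X]` of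
`(∑_{|n - x| < H / 2} a n μ(n) (n / p))²` is `H / ζ(2)` up to an error of at most `H X ^ (-c)`.
-/

namespace Pool.Agent.Results.MP_4f18df_nt.LegendreVariance

open MeasureTheory

/-- **The mean square in short intervals of `a(n) μ(n) (n/p)`, for almost all primes `p`.** -/
theorem result (ε : ℝ) (hε : 0 < ε) (hε' : ε < 1 / 2) :
    ∃ c : ℝ, 0 < c ∧ ∃ Q₀ : ℕ, ∀ Q : ℕ, Q₀ ≤ Q →
      ∀ a : ℕ → ℤ, (∀ n, a n = 1 ∨ a n = -1) →
      ∃ E : Finset ℕ, (E.card : ℝ) ≤ (Q : ℝ) ^ (1 - c) ∧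
        ∀ p : ℕ, p.Prime → p ≤ Q → p ∉ E →
        ∀ X H : ℝ, (Q : ℝ) ^ ε ≤ X → X ^ ε ≤ H → H ≤ X ^ (1 - ε) → X * H ≤ (Q : ℝ) ^ (1 - ε) →
          |(1 / X) * (∫ x in X..2 * X,
              (∑ n ∈ (Finset.range (⌊x + H⌋₊ + 1)).filter (fun n : ℕ => |(n : ℝ) - x| < H / 2),
                ((a n * ArithmeticFunction.moebius n * jacobiSym (n : ℤ) p : ℤ) : ℝ)) ^ 2) -
            H / (Real.pi ^ 2 / 6)| ≤ H * X ^ (-c) := by
  classical
  obtain ⟨c, hc, Q₀, h⟩ := Pool.Agent.L0h54.VR.variance ε hε hε'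
  refine ⟨c, hc, Q₀, fun Q hQ a ha => ?_⟩
  have hsg : ∀ n : ℕ, |(if Squarefree n then
      ((a n * ArithmeticFunction.moebius n : ℤ) : ℝ) else 1)| = 1 := by
    intro n
    split_ifs with hn
    · have h3 : |a n * ArithmeticFunction.moebius n| = 1 := by
        rw [abs_mul, ArithmeticFunction.abs_moebius_eq_one_of_squarefree hn, mul_one]
        rcases ha n with h4 | h4 <;> rw [h4] <;> rfl
      rw [← Int.cast_abs, h3, Int.cast_one]
    · exact abs_one
  obtain ⟨E, hE1, hE2⟩ := h Q hQ (fun n => if Squarefree n then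
      ((a n * ArithmeticFunction.moebius n : ℤ) : ℝ) else 1) hsg
  refine ⟨E, hE1, fun p hp hpQ hpE X H hX hH1 hH2 hXH => ?_⟩
  have h5 := hE2 p hp hpQ hpE X H hX hH1 hH2 hXH
    (fun n => ((a n * ArithmeticFunction.moebius n * jacobiSym (n : ℤ) p : ℤ) : ℝ))
    (by
      intro n hn
      rw [ArithmeticFunction.moebius_eq_zero_of_not_squarefree hn]
      simp)
    (by
      intro n hn
      unfold Pool.Agent.L0h54.GC.ff Pool.Agent.H306R2.RZ.js
      simp only [if_pos hn]
      push_cast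
      rfl)
  have e : (6 : ℝ) / Real.pi ^ 2 * H = H / (Real.pi ^ 2 / 6) := by
    field_simp
  rw [e] at h5
  exact h5

end Pool.Agent.Results.MP_4f18df_nt.LegendreVariance
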