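import Pool.Agent.L0h54.RM.Main

set_option autoImplicit false

/-!
# The Good–Churchhouse conjecture for almost every Rademacher random multiplicative function

Attach independent fair signs to the primes and extend multiplicatively to the squarefree
integers (value `0` at the other integers).  The Möbius function is the realisation in which all
signs are `-1`.  We prove that for almost every realisation the statement of the Good–Churchhouse
conjecture holds with the Möbius function replaced by the realisation, for all `ε`, all functions
`H` and all `t` at the same time.
-/

namespace Pool.Agent.Results.MP_4f18df_nt.RandomModel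

open MeasureTheory
open scoped ENNReal

/-- The fair coin: both values of `Bool` have probability `1/2`. -/
noncomputable def coin : Measure Bool := (1 / 2 : ℝ≥0∞) • (Measure.dirac true + Measure.dirac false)

/-- Independent fair coins, one for each natural number. -/
noncomputable def coins : Measure (ℕ → Bool) := Measure.infinitePi (fun _ : ℕ => coin)

/-- The Rademacher random multiplicative function: `f_ω(n) = ∏_{p ∣ n} (±1)`, with the sign of `p`
given by `ω p`, if `n` is squarefree, and `f_ω(n) = 0` if `n` is not squarefree. -/
noncomputable def randomMu (ω : ℕ → Bool) (n : ℕ) : ℝ :=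
  if Squarefree n then ∏ p ∈ n.primeFactors, (if ω p = true then (1 : ℝ) else -1) else 0

/-- The Möbius function is the realisation with all signs `-1`. -/
theorem randomMu_false (n : ℕ) :
    randomMu (fun _ => false) n = ((ArithmeticFunction.moebius n : ℤ) : ℝ) := by
  unfold randomMu
  by_cases h : Squarefree n
  · rw [if_pos h, ArithmeticFunction.moebius_apply_of_squarefree h]
    simp only [Bool.false_eq_true, if_false, Finset.prod_const]
    rw [← (ArithmeticFunction.cardDistinctFactors_eq_cardFactors_iff_squarefree h.ne_zero).2 h,
      ArithmeticFunction.cardDistinctFactors_apply]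
    push_cast
    rfl
  · rw [if_neg h, ArithmeticFunction.moebius_eq_zero_of_not_squarefree h, Int.cast_zero]

/-- **Almost surely, the Good–Churchhouse conjecture holds for the random model of `μ`.** -/
theorem result : ∀ᵐ ω ∂coins,
    ∀ ε : ℝ, 0 < ε → ε < 1 / 2 →
    ∀ H : ℝ → ℝ,
      (∀ᶠ X in Filter.atTop, X ^ ε < H X ∧ H X < X ^ (1 - ε)) →
      ∀ t : ℝ,
        Filter.Tendsto
          (fun X : ℝ =>
            (MeasureTheory.volume
              {x : ℝ | x ∈ Set.Icc X (2 * X) ∧
                (∑ n ∈ (Finset.range (⌊x + H X⌋₊ + 1)).filter
                    (fun n : ℕ => |(n : ℝ) - x| < H X / 2), randomMu ω n)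
                  / Real.sqrt (H X / (Real.pi ^ 2 / 6)) ≤ t}).toReal / X)
          Filter.atTop
          (nhds (ProbabilityTheory.cdf (ProbabilityTheory.gaussianReal 0 1) t)) := by
  have h := Pool.Agent.L0h54.RM.main
  exact h

end Pool.Agent.Results.MP_4f18df_nt.RandomModel
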